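import Pool.Agent.W4.QD.All3
import Pool.Agent.W4.QD.NFabc

/-!
The abc conjecture over number fields for the points
`((x - α)(β - γ) : (x - β)(γ - α) : (x - γ)(α - β))`, `x` rational, where `α`, `β`, `γ` have degree at
least three over `ℚ`: bounds for the number of exceptions.
-/

set_option autoImplicit false

namespace Pool.Agent.Results.MP_a793bb_nt.RationalLines

open NumberField IsDedekindDomain

/-- the point `((x - α)(β - γ) : (x - β)(γ - α) : (x - γ)(α - β))` of the line `a + b + c = 0` -/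
def pt {K : Type} [Field K] (α : Fin 3 → K) (x : K) : Fin 3 → K :=
  ![(x - α 0) * (α 1 - α 2), (x - α 1) * (α 2 - α 0), (x - α 2) * (α 0 - α 1)]

/-- the absolute logarithmic height of a point of the projective plane over `K` -/
noncomputable def ht {K : Type} [Field K] [NumberField K] (P : Fin 3 → K) : ℝ :=
  (∑ w : InfinitePlace K, (w.mult : ℝ) * Real.log (max (w (P 0)) (max (w (P 1)) (w (P 2)))) +
    ∑ᶠ v : HeightOneSpectrum (RingOfIntegers K),
      Real.log (max (FinitePlace.mk v (P 0)) (max (FinitePlace.mk v (P 1))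
        (FinitePlace.mk v (P 2))))) / (Module.finrank ℚ K : ℝ)

/-- the radical: `1 / [K : ℚ]` times the sum of `log N(v)` over the primes `v` of `K` at which the
absolute values of the three coordinates are not all equal -/
noncomputable def rad {K : Type} [Field K] [NumberField K] (P : Fin 3 → K) : ℝ :=
  (∑ᶠ (v : HeightOneSpectrum (RingOfIntegers K))
    (_ : ¬ (FinitePlace.mk v (P 0) = FinitePlace.mk v (P 1) ∧
      FinitePlace.mk v (P 1) = FinitePlace.mk v (P 2))),
      Real.log (Ideal.absNorm v.asIdeal : ℝ)) / (Module.finrank ℚ K : ℝ)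

/-- the set of the rational numbers `x` whose numerator and denominator are bounded by `B` such that
`h(P) ≥ κ rad(P) - c` for `P = pt α x` -/
def Exceptional {K : Type} [Field K] [NumberField K] (α : Fin 3 → K) (κ c B : ℝ) : Set ℚ :=
  {x : ℚ | |(x.num : ℝ)| ≤ B ∧ (x.den : ℝ) ≤ B ∧ κ * rad (pt α (x : K)) ≤ ht (pt α (x : K)) + c}

/-- the exponent: `Y ^ (exponent n lam + ε)` bounds the number of pairs up to `Y` where an irreducible
form of degree `n` has a value of radical at most `Y ^ lam` -/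
noncomputable def exponent (n : ℕ) (lam : ℝ) : ℝ :=
  min (((n : ℝ) ^ 2 + 2 * n - 2) / (n * (2 * n - 1)) * lam)
    (max (lam - (n - 1) * (n - 2) / (2 * n - 1)) ((lam + n * (n - 1)) / (4 * n - 3)))

/-- Let `K` be a number field of degree `n` and let `α_0, α_1, α_2 ∈ K` be distinct elements of
degrees `n_j ≥ 3` over `ℚ`. Let `κ > 0`, `0 ≤ λ_j ≤ n_j - 2` with `λ_0 + λ_1 + λ_2 ≥ n / κ` and
`exponent n_j λ_j ≤ E` for all `j`. Then for all `c` and `ε > 0` there is `C` such that for every
`B ≥ 1` at most `C B ^ (E + ε)` rational numbers `x` with numerator and denominator bounded by `B`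
satisfy `h(P) ≥ κ rad(P) - c`, `P = pt α x`. -/
theorem result (K : Type) [Field K] [NumberField K] (α : Fin 3 → K) (hα : Function.Injective α)
    (hd : ∀ j, 3 ≤ (minpoly ℚ (α j)).natDegree) (κ c E ε : ℝ) (hκ : 0 < κ) (hε : 0 < ε)
    (lam : Fin 3 → ℝ) (hl : ∀ j, 0 ≤ lam j ∧ lam j ≤ ((minpoly ℚ (α j)).natDegree : ℝ) - 2)
    (hL : (Module.finrank ℚ K : ℝ) / κ ≤ ∑ j, lam j)
    (hE : ∀ j, exponent (minpoly ℚ (α j)).natDegree (lam j) ≤ E) :
    ∃ C : ℝ, ∀ B : ℝ, 1 ≤ B → (Exceptional α κ c B).Finite ∧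
      ((Exceptional α κ c B).ncard : ℝ) ≤ C * B ^ (E + ε) :=
  Pool.Agent.W4.QD.nf_count Pool.Agent.W4.QD.hTRF Pool.Agent.W4.QD.hHF Pool.Agent.W4.QD.hHTP
    Pool.Agent.W4.QD.hRADK K α hα hd κ c E ε hκ hε lam hl hL hE

end Pool.Agent.Results.MP_a793bb_nt.RationalLines
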